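import Pool.Agent.T9h44.LG.Spec2
import Pool.Agent.T9h82.LS.KL1

/-!
# The `L^1` norm of the kernel `KM` (piece S_l1 of the project LG of helper44)
-/

set_option autoImplicit false

namespace Pool.Agent.T9h73.LG

open MeasureTheory Real Pool.Agent.N303.LS Pool.Agent.T9h44.LS4 Pool.Agent.T9h44.LG
open Pool.Agent.T9h82.LS
open Filter Topology Set
open scoped ENNReal

theorem KM_eq {n : ℕ} (M : ℕ) {y : ℝ} (hy : 0 < y) (w : ℝ) (g z : Fin n → ℝ) :
    KM M n y w g z = (Real.Gamma (((n : ℝ) + 1) / 2 + M) : ℂ) *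
      rate y w g z ^ (-((((n : ℝ) + 1) / 2 + M : ℝ) : ℂ)) := by
  have hre : 0 < (rate y w g z).re := by
    unfold rate
    simp only [Complex.add_re, Complex.ofReal_re, Complex.re_ofReal_mul, Complex.I_re, mul_zero,
      add_zero]
    positivity
  rw [← gamma_int _ (by positivity) _ hre]
  unfold KM os
  refine setIntegral_congr_fun measurableSet_Ioi fun s _ => ?_
  rw [show ((n : ℝ) + 1) / 2 + M - 1 = ((n : ℝ) - 1) / 2 + M by ring]
  rw [Complex.ofReal_mul, mul_assoc, Complex.ofReal_exp, ← Complex.exp_add]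
  congr 2
  unfold rate
  push_cast
  ring

theorem norm_KM {n : ℕ} (M : ℕ) {y : ℝ} (hy : 0 < y) (w : ℝ) (g z : Fin n → ℝ) :
    ‖KM M n y w g z‖ = Real.Gamma (((n : ℝ) + 1) / 2 + M) /
      ‖rate y w g z‖ ^ (((n : ℝ) + 1) / 2 + M) := by
  rw [KM_eq M hy, norm_mul, Complex.norm_real, Real.norm_of_nonneg (by positivity),
    ← Complex.ofReal_neg, Complex.norm_cpow_real, Real.rpow_neg (norm_nonneg _)]
  rfl

/-- the bound in the norm -/
noncomputable def BM (α y w r : ℝ) : ℝ := (y + |r - w|) ^ (-α)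

theorem KM_le {n : ℕ} (M : ℕ) {y : ℝ} (hy : 0 < y) (w : ℝ) (g z : Fin n → ℝ) :
    ‖KM M n y w g z‖ₑ ≤ ENNReal.ofReal (Real.Gamma (((n : ℝ) + 1) / 2 + M)) *
      ENNReal.ofReal (BM (((n : ℝ) + 1) / 2 + M) y w (q g z)) := by
  have hG : 0 < Real.Gamma (((n : ℝ) + 1) / 2 + M) := Real.Gamma_pos_of_pos (by positivity)
  rw [← ofReal_norm, ← ENNReal.ofReal_mul hG.le, norm_KM M hy]
  refine ENNReal.ofReal_le_ofReal ?_
  unfold BM
  rw [div_eq_mul_inv, Real.rpow_neg (by positivity)]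
  refine mul_le_mul_of_nonneg_left ?_ hG.le
  refine inv_anti₀ (by positivity) ?_
  exact Real.rpow_le_rpow (by positivity) (rate_norm_ge hy w g z) (by positivity)

/-- reduction to the flat quadratic form -/
theorem red_BM {n : ℕ} {α y : ℝ} (w : ℝ) {g : Fin n → ℝ} (hg : g ∈ box n) :
    ∫⁻ z : Fin n → ℝ, ENNReal.ofReal (BM α y w (q g z)) ≤
      ∫⁻ x : E n, ENNReal.ofReal (BM α y w (‖x‖ ^ 2)) := by
  have hg1 : ∀ i, 1 ≤ Real.sqrt (g i) := fun i => Real.one_le_sqrt.2 (hg i).1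
  have hg0 : ∀ i, 0 < Real.sqrt (g i) := fun i => lt_of_lt_of_le one_pos (hg1 i)
  have hm : Measurable fun x : Fin n → ℝ => ENNReal.ofReal (BM α y w (∑ i, x i ^ 2)) := by
    unfold BM
    fun_prop
  have h1 := lint_diag (fun i => Real.sqrt (g i)) hg0
    (fun x => ENNReal.ofReal (BM α y w (∑ i, x i ^ 2))) hm
  have e1 : ∀ z : Fin n → ℝ, ∑ i, (Real.sqrt (g i) * z i) ^ 2 = q g z := by
    intro z
    unfold q
    refine Finset.sum_congr rfl fun i _ => ?_
    rw [mul_pow, Real.sq_sqrt (by linarith [(hg i).1])]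
  simp only [e1] at h1
  have e2 : ∫⁻ x : Fin n → ℝ, ENNReal.ofReal (BM α y w (∑ i, x i ^ 2)) =
      ∫⁻ x : E n, ENNReal.ofReal (BM α y w (‖x‖ ^ 2)) := by
    rw [← lint_E']
    refine lintegral_congr fun x => ?_
    rw [EuclideanSpace.norm_sq_eq]
    simp
  rw [← e2, ← h1]
  refine le_mul_of_one_le_left zero_le ?_
  rw [← ENNReal.ofReal_one]
  refine ENNReal.ofReal_le_ofReal ?_
  calc (1 : ℝ) = ∏ i : Fin n, (1 : ℝ) := by simp
    _ ≤ _ := Finset.prod_le_prod (fun _ _ => by norm_num) fun i _ => hg1 i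

/-- the one-dimensional bound -/
theorem FM_le (m : ℕ) {α y a ρ : ℝ} (hα : 0 < α) (hy : 0 < y) (ha : 1 / 2 ≤ a) (hρ : 0 < ρ) :
    ρ ^ m * FF (-α) y (a ^ 2) ρ ≤ 3 ^ m * (y ^ (-α) * (1 + ‖(2 * y)⁻¹ * (ρ - a)‖) ^ (-α)) := by
  unfold FF
  split_ifs with h3
  · have e : |ρ ^ 2 - a ^ 2| = |ρ - a| * (ρ + a) := by
      rw [show ρ ^ 2 - a ^ 2 = (ρ - a) * (ρ + a) by ring, abs_mul, abs_of_pos (by linarith : 0 < ρ + a)]
    have h1 : (y + |ρ ^ 2 - a ^ 2|) ^ (-α) ≤ (y + |ρ - a| * (1 / 2)) ^ (-α) := by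
      refine Real.rpow_le_rpow_of_nonpos (by positivity) ?_ (by linarith)
      rw [e]
      have : |ρ - a| * (1 / 2) ≤ |ρ - a| * (ρ + a) := by
        refine mul_le_mul_of_nonneg_left ?_ (abs_nonneg _)
        linarith
      linarith
    have h2 : (y + |ρ - a| * (1 / 2)) = y * (1 + ‖(2 * y)⁻¹ * (ρ - a)‖) := by
      rw [norm_mul, Real.norm_eq_abs, Real.norm_eq_abs, abs_of_pos (by positivity : 0 < (2 * y)⁻¹)]
      field_simp
    rw [h2, Real.mul_rpow hy.le (by positivity)] at h1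
    have h4 : ρ ^ m ≤ 3 ^ m := pow_le_pow_left₀ hρ.le h3 m
    exact mul_le_mul h4 h1 (Real.rpow_nonneg (by positivity) _) (by positivity)
  · rw [mul_zero]
    positivity

theorem nearM {n : ℕ} (hn : 1 ≤ n) {α : ℝ} (hα : 1 < α) :
    ∃ C : ℝ, 0 < C ∧ ∀ y w : ℝ, 0 < y → w ∈ Icc (1 / 4 : ℝ) 4 →
      ∫⁻ x : E n, ENNReal.ofReal (FF (-α) y w ‖x‖) ≤ ENNReal.ofReal (C * y ^ (1 - α)) := by
  have : Nonempty (Fin n) := ⟨⟨0, hn⟩⟩
  have hnt : Nontrivial (E n) := by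
    have : (0 : ℕ) < Module.finrank ℝ (E n) := by
      rw [finrank_euclideanSpace_fin]; omega
    exact Module.nontrivial_of_finrank_pos this
  have hHi : Integrable fun u : ℝ => (1 + ‖u‖) ^ (-α) := by
    refine integrable_one_add_norm ?_
    rw [Module.finrank_self]
    exact_mod_cast hα
  set H : ℝ := ∫ u : ℝ, (1 + ‖u‖) ^ (-α) with hH
  have hH0 : 0 ≤ H := integral_nonneg fun u => by positivity
  refine ⟨(n : ℝ) * (volume : Measure (E n)).real (Metric.ball 0 1) * (2 * 3 ^ (n - 1) * H) + 1,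
    by positivity, ?_⟩
  intro y w hy hw
  set a := Real.sqrt w with ha
  have haw : a ^ 2 = w := Real.sq_sqrt (by linarith [hw.1])
  have ha0 : 0 ≤ a := Real.sqrt_nonneg w
  have ha1 : 1 / 2 ≤ a := by
    by_contra h
    have h' : a < 1 / 2 := not_le.1 h
    nlinarith [hw.1]
  have hy2 : (2 * y)⁻¹ ≠ 0 := by positivity
  have hc : Integrable fun ρ : ℝ => (1 + ‖(2 * y)⁻¹ * (ρ - a)‖) ^ (-α) := by
    have h1 := (hHi.comp_mul_left' hy2).comp_sub_right a
    exact h1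
  have hcv : ∫ ρ : ℝ, (1 + ‖(2 * y)⁻¹ * (ρ - a)‖) ^ (-α) = 2 * y * H := by
    have h1 := integral_sub_right_eq_self (μ := (volume : Measure ℝ))
      (fun ρ : ℝ => (1 + ‖(2 * y)⁻¹ * ρ‖) ^ (-α)) a
    have h2 := Measure.integral_comp_mul_left (fun u : ℝ => (1 + ‖u‖) ^ (-α)) (2 * y)⁻¹
    rw [h1, h2, inv_inv, abs_of_pos (by positivity), smul_eq_mul]
  have hsh : Integrable fun ρ : ℝ =>
      3 ^ (n - 1) * (y ^ (-α) * (1 + ‖(2 * y)⁻¹ * (ρ - a)‖) ^ (-α)) :=
    (hc.const_mul _).const_mul _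
  have hae : ∀ ρ ∈ Ioi (0 : ℝ),
      ρ ^ (n - 1) * FF (-α) y w ρ ≤
        3 ^ (n - 1) * (y ^ (-α) * (1 + ‖(2 * y)⁻¹ * (ρ - a)‖) ^ (-α)) := by
    intro ρ h3
    rw [← haw]
    exact FM_le (n - 1) (by linarith) hy ha1 h3
  have hmeas : Measurable fun ρ : ℝ => ρ ^ (n - 1) * FF (-α) y w ρ :=
    (measurable_id.pow_const _).mul (meas_FF _ _ _)
  have hGi : IntegrableOn (fun ρ : ℝ => ρ ^ (n - 1) * FF (-α) y w ρ) (Ioi 0) := by
    refine Integrable.mono' hsh.integrableOn hmeas.aestronglyMeasurable ?_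
    filter_upwards [ae_restrict_mem measurableSet_Ioi] with ρ h3
    have h3' : 0 < ρ := h3
    rw [Real.norm_of_nonneg (mul_nonneg (pow_nonneg h3'.le _) (FF_nonneg hy))]
    exact hae ρ h3
  have hFi : Integrable fun x : E n => FF (-α) y w ‖x‖ := by
    rw [integrable_fun_norm_addHaar (volume : Measure (E n)) (f := FF (-α) y w),
      finrank_euclideanSpace_fin]
    exact hGi
  rw [← ofReal_integral_eq_lintegral_ofReal hFi (Eventually.of_forall fun x => FF_nonneg hy)]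
  refine ENNReal.ofReal_le_ofReal ?_
  rw [integral_fun_norm_addHaar (volume : Measure (E n)) (FF (-α) y w),
    finrank_euclideanSpace_fin, nsmul_eq_mul, smul_eq_mul, ← mul_assoc]
  simp only [smul_eq_mul]
  have hy1 : y ^ (-α) * y = y ^ (1 - α) := by
    rw [show (1 : ℝ) - α = -α + 1 by ring, Real.rpow_add hy, Real.rpow_one]
  have h5 : ∫ ρ in Ioi (0 : ℝ), ρ ^ (n - 1) * FF (-α) y w ρ ≤
      2 * 3 ^ (n - 1) * H * y ^ (1 - α) := by
    calc ∫ ρ in Ioi (0 : ℝ), ρ ^ (n - 1) * FF (-α) y w ρ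
        ≤ ∫ ρ in Ioi (0 : ℝ), 3 ^ (n - 1) * (y ^ (-α) * (1 + ‖(2 * y)⁻¹ * (ρ - a)‖) ^ (-α)) :=
          setIntegral_mono_on hGi hsh.integrableOn measurableSet_Ioi hae
      _ ≤ ∫ ρ : ℝ, 3 ^ (n - 1) * (y ^ (-α) * (1 + ‖(2 * y)⁻¹ * (ρ - a)‖) ^ (-α)) := by
          refine setIntegral_le_integral hsh (Eventually.of_forall fun ρ => ?_)
          positivity
      _ = 2 * 3 ^ (n - 1) * H * y ^ (1 - α) := by
          rw [integral_const_mul, integral_const_mul, hcv, ← hy1]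
          ring
  have h6 : (0 : ℝ) ≤ (n : ℝ) * (volume : Measure (E n)).real (Metric.ball 0 1) := by positivity
  have h7 := mul_le_mul_of_nonneg_left h5 h6
  have h8 : 0 ≤ y ^ (1 - α) := by positivity
  nlinarith

/-- far from the cone -/
theorem BM_far (n : ℕ) {α y w ρ : ℝ} (hα : ((n : ℝ) + 1) / 2 ≤ α) (hρ0 : 0 ≤ ρ)
    (h : (1 + ρ) ^ 2 / 32 ≤ y + |ρ ^ 2 - w|) :
    BM α y w (ρ ^ 2) ≤ (32 : ℝ) ^ α * (1 + ρ) ^ (-((n : ℝ) + 1)) := by
  unfold BM
  have hα0 : 0 ≤ α := le_trans (by positivity) hα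
  have h1 : (y + |ρ ^ 2 - w|) ^ (-α) ≤ ((1 + ρ) ^ 2 / 32) ^ (-α) :=
    Real.rpow_le_rpow_of_nonpos (by positivity) h (by linarith)
  refine h1.trans ?_
  rw [div_eq_mul_inv, Real.mul_rpow (by positivity) (by norm_num), mul_comm]
  have e1 : ((32 : ℝ)⁻¹) ^ (-α) = 32 ^ α := by
    rw [Real.inv_rpow (by norm_num), ← Real.rpow_neg (by norm_num), neg_neg]
  rw [e1]
  refine mul_le_mul_of_nonneg_left ?_ (by positivity)
  rw [← Real.rpow_natCast, ← Real.rpow_mul (by positivity)]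
  refine Real.rpow_le_rpow_of_exponent_le (by linarith) ?_
  push_cast
  linarith

/-- pointwise splitting -/
theorem BM_le {n : ℕ} {α y w ρ : ℝ} (hα : ((n : ℝ) + 1) / 2 ≤ α) (hy : 0 < y)
    (hw4 : w ≤ 4) (hρ0 : 0 ≤ ρ) :
    BM α y w (ρ ^ 2) ≤ (32 : ℝ) ^ α * (1 + ρ) ^ (-((n : ℝ) + 1)) + FF (-α) y w ρ := by
  by_cases h3 : ρ ≤ 3
  · have h1 : BM α y w (ρ ^ 2) ≤ FF (-α) y w ρ := by
      unfold BM FF
      rw [if_pos h3]
    have h2 : 0 ≤ (32 : ℝ) ^ α * (1 + ρ) ^ (-((n : ℝ) + 1)) := by positivity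
    linarith
  · have h3' : 3 < ρ := not_le.1 h3
    have h1 := BM_far n (y := y) (w := w) hα hρ0 (by
      have := le_abs_self (ρ ^ 2 - w)
      nlinarith)
    have h2 : 0 ≤ FF (-α) y w ρ := FF_nonneg hy
    linarith

/-- **S_l1** -/
theorem s_l1 (n : ℕ) : S_l1 n := by
  intro hn M hM
  have : Nonempty (Fin n) := ⟨⟨0, hn⟩⟩
  have hn1 : (1 : ℝ) ≤ n := by exact_mod_cast hn
  have hM1 : (1 : ℝ) ≤ M := by exact_mod_cast hM
  set α : ℝ := ((n : ℝ) + 1) / 2 + M with hα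
  have hα1 : 1 < α := by rw [hα]; linarith
  have hα2 : ((n : ℝ) + 1) / 2 ≤ α := by rw [hα]; linarith
  obtain ⟨C1, hC1, hN⟩ := nearM hn hα1
  set G := Real.Gamma α with hG
  have hG0 : 0 < G := Real.Gamma_pos_of_pos (by positivity)
  set J : ℝ := ∫ x : E n, (1 + ‖x‖) ^ (-((n : ℝ) + 1)) with hJ
  have hJi : Integrable fun x : E n => (1 + ‖x‖) ^ (-((n : ℝ) + 1)) := by
    refine integrable_one_add_norm ?_
    rw [finrank_euclideanSpace_fin]
    linarith
  have hJ0 : 0 ≤ J := integral_nonneg fun x => by positivity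
  set c := (32 : ℝ) ^ α with hc
  have hc0 : 0 < c := by positivity
  refine ⟨G * (c * J + C1), by positivity, ?_⟩
  intro g hg y t hy hy1 ht
  set w := t ^ 2 - y ^ 2 / t ^ 2 with hw
  have ht1 : 1 ≤ t := ht.1
  have ht2 : t ≤ 2 := ht.2
  have hdiv : y ^ 2 / t ^ 2 ≤ y ^ 2 := div_le_self (sq_nonneg _) (by nlinarith)
  have hdiv0 : 0 ≤ y ^ 2 / t ^ 2 := by positivity
  have hw4 : w ≤ 4 := by rw [hw]; nlinarith
  have hw1 : 1 - y ^ 2 ≤ w := by rw [hw]; nlinarith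
  have hfar : ∫⁻ x : E n, ENNReal.ofReal (c * (1 + ‖x‖) ^ (-((n : ℝ) + 1))) =
      ENNReal.ofReal (c * J) := by
    rw [← ofReal_integral_eq_lintegral_ofReal (hJi.const_mul c)
      (Eventually.of_forall fun x => by positivity), integral_const_mul]
  have he : -(((n : ℝ) - 1) / 2 + M) = 1 - α := by rw [hα]; ring
  have hy1' : 1 ≤ y ^ (1 - α) :=
    Real.one_le_rpow_of_pos_of_le_one_of_nonpos hy hy1 (by linarith)
  have key : ∫⁻ x : E n, ENNReal.ofReal (BM α y w (‖x‖ ^ 2)) ≤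
      ENNReal.ofReal ((c * J + C1) * y ^ (1 - α)) := by
    by_cases hw2 : 1 / 4 ≤ w
    · calc ∫⁻ x : E n, ENNReal.ofReal (BM α y w (‖x‖ ^ 2))
          ≤ ∫⁻ x : E n, (ENNReal.ofReal (c * (1 + ‖x‖) ^ (-((n : ℝ) + 1))) +
              ENNReal.ofReal (FF (-α) y w ‖x‖)) := by
            refine lintegral_mono fun x => ?_
            rw [← ENNReal.ofReal_add (by positivity) (FF_nonneg hy)]
            exact ENNReal.ofReal_le_ofReal (BM_le hα2 hy hw4 (norm_nonneg x))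
        _ = ENNReal.ofReal (c * J) + ∫⁻ x : E n, ENNReal.ofReal (FF (-α) y w ‖x‖) := by
            rw [lintegral_add_left (by fun_prop), hfar]
        _ ≤ ENNReal.ofReal (c * J) + ENNReal.ofReal (C1 * y ^ (1 - α)) := by
            gcongr
            exact hN y w hy ⟨hw2, hw4⟩
        _ = ENNReal.ofReal (c * J + C1 * y ^ (1 - α)) := by
            rw [← ENNReal.ofReal_add (by positivity) (by positivity)]
        _ ≤ _ := by
            refine ENNReal.ofReal_le_ofReal ?_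
            have : c * J ≤ c * J * y ^ (1 - α) :=
              le_mul_of_one_le_right (by positivity) hy1'
            linarith
    · have hy2 : 1 / 2 ≤ y := by
        by_contra h
        have h' : y < 1 / 2 := not_le.1 h
        nlinarith
      calc ∫⁻ x : E n, ENNReal.ofReal (BM α y w (‖x‖ ^ 2))
          ≤ ∫⁻ x : E n, ENNReal.ofReal (c * (1 + ‖x‖) ^ (-((n : ℝ) + 1))) := by
            refine lintegral_mono fun x => ENNReal.ofReal_le_ofReal ?_
            refine BM_far n hα2 (norm_nonneg x) ?_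
            have hx := norm_nonneg x
            have h7 := abs_nonneg (‖x‖ ^ 2 - w)
            by_cases h3 : ‖x‖ ≤ 3
            · nlinarith
            · have h3' : 3 < ‖x‖ := not_le.1 h3
              have := le_abs_self (‖x‖ ^ 2 - w)
              nlinarith
        _ = ENNReal.ofReal (c * J) := hfar
        _ ≤ _ := by
            refine ENNReal.ofReal_le_ofReal ?_
            have h8 : c * J ≤ c * J * y ^ (1 - α) :=
              le_mul_of_one_le_right (by positivity) hy1'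
            have h9 : 0 ≤ C1 * y ^ (1 - α) := by positivity
            linarith
  rw [he]
  calc ∫⁻ z : Fin n → ℝ, ‖KM M n y w g z‖ₑ
      ≤ ∫⁻ z : Fin n → ℝ, ENNReal.ofReal G * ENNReal.ofReal (BM α y w (q g z)) :=
        lintegral_mono fun z => KM_le M hy w g z
    _ = ENNReal.ofReal G * ∫⁻ z : Fin n → ℝ, ENNReal.ofReal (BM α y w (q g z)) :=
        lintegral_const_mul' _ _ ENNReal.ofReal_ne_top
    _ ≤ ENNReal.ofReal G * ENNReal.ofReal ((c * J + C1) * y ^ (1 - α)) := by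
        gcongr
        exact (red_BM w hg).trans key
    _ = ENNReal.ofReal (G * (c * J + C1) * y ^ (1 - α)) := by
        rw [← ENNReal.ofReal_mul hG0.le, mul_assoc]

end Pool.Agent.T9h73.LG
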