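import Pool.Agent.T9h44.LG.Spec3
import Pool.Agent.T9h82.LS.E2
import Pool.Agent.T9h82.LS.E3
import Pool.Agent.T9h82.LS.HI

/-!
# The multiplier of the link is bounded (piece S_hm of the project LG of helper44)
-/

set_option autoImplicit false

namespace Pool.Agent.T9h73.LG

open MeasureTheory Real Pool.Agent.N303.LS Pool.Agent.T9h44.LS4 Pool.Agent.T9h44.LS5
open Pool.Agent.T9h44.LG Pool.Agent.T9h82.LS
open Filter Topology Set
open scoped ENNReal SchwartzMap RealInnerProductSpace ContDiff Pointwise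

theorem Pb_zero (M : ℕ) : (Pb M).eval 0 = 1 := by
  induction M with
  | zero => simp [Pb]
  | succ M ih => simp [Pb, ih]

theorem Pb_near (M : ℕ) : ∃ δ : ℝ, 0 < δ ∧ ∀ z : ℂ, ‖z‖ < δ → (Pb M).eval z ≠ 0 := by
  have hc : ContinuousAt (fun z : ℂ => (Pb M).eval z) 0 := (Pb M).continuous.continuousAt
  have h1 : ∀ᶠ z in 𝓝 (0 : ℂ), (Pb M).eval z ≠ 0 := by
    refine hc.eventually_ne ?_
    rw [Pb_zero]
    exact one_ne_zero
  rw [Metric.eventually_nhds_iff] at h1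
  obtain ⟨δ, hδ, h⟩ := h1
  exact ⟨δ, hδ, fun z hz => h (by rwa [dist_zero_right])⟩

variable {n : ℕ}

/-- the argument of the polynomial -/
noncomputable def ag (t y : ℝ) (γ : Fin n → ℝ) (η : E n) : ℂ :=
  y / (2 * π * Complex.I * (Real.sqrt (Qd γ η) : ℝ) * tau y t)

theorem ag_norm {t y s : ℝ} (ht : 1 / 2 < t) (hs : 1 / 4 ≤ s) :
    ‖(y : ℂ) / (2 * π * Complex.I * (s : ℝ) * tau y t)‖ ≤ 8 * |y| := by
  have hπ : 3 < π := Real.pi_gt_three
  have h1 : t ≤ ‖tau y t‖ := by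
    have h := Complex.abs_re_le_norm (tau y t)
    have e : (tau y t).re = t := by
      unfold tau
      simp only [Complex.add_re, Complex.ofReal_re, Complex.re_ofReal_mul, Complex.I_re, mul_zero,
        add_zero]
    rw [e, abs_of_pos (by linarith)] at h
    exact h
  rw [norm_div, norm_mul, norm_mul, norm_mul, norm_mul, Complex.norm_real, Complex.norm_real,
    Complex.norm_real, Complex.norm_I, Complex.norm_two, Real.norm_eq_abs, Real.norm_eq_abs,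
    Real.norm_eq_abs, abs_of_pos Real.pi_pos, abs_of_pos (by linarith : 0 < s), mul_one]
  have h2 : 1 / 2 ≤ ‖tau y t‖ := by linarith
  have h3 : 1 / 8 ≤ 2 * π * s * ‖tau y t‖ := by
    have h4 : (2 : ℝ) * 3 * (1 / 4) ≤ 2 * π * s := by nlinarith
    nlinarith
  rw [div_le_iff₀ (by linarith)]
  nlinarith [abs_nonneg y]

theorem Qd_sqrt_ge {γ : Fin n → ℝ} (hγ : ∀ i, 1 / 4 < γ i) {η : E n} (hη : 1 / 2 ≤ ‖η‖) :
    1 / 4 ≤ Real.sqrt (Qd γ η) := by
  refine Real.le_sqrt_of_sq_le ?_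
  have h1 : 1 / 4 * ‖η‖ ^ 2 ≤ Qd γ η := by
    rw [EuclideanSpace.norm_sq_eq, Finset.mul_sum]
    unfold Qd
    refine Finset.sum_le_sum fun i _ => ?_
    rw [Real.norm_eq_abs, sq_abs]
    exact mul_le_mul_of_nonneg_right (hγ i).le (sq_nonneg _)
  nlinarith

theorem s_hm (n : ℕ) : S_hm n := by
  have h : S_E3 n := e3 n (e2 n)
  intro M a b
  obtain ⟨δ, hδ, hP⟩ := Pb_near M
  set y₀ : ℝ := δ / 32 with hy₀
  have hy0 : 0 < y₀ := by positivity
  set U : Set (ℝ × (Fin n → ℝ) × ℝ × ℝ) :=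
    {p | 1 / 2 < p.1 ∧ (∀ i, 1 / 4 < p.2.1 i) ∧ -1 < p.2.2.1 ∧ |p.2.2.2| < 2 * y₀} with hU
  set K : Set (ℝ × (Fin n → ℝ) × ℝ × ℝ) :=
    Icc (1 : ℝ) 2 ×ˢ ((Set.univ.pi fun _ => Icc (1 / 2 : ℝ) 1) ×ˢ (Icc (0 : ℝ) 1 ×ˢ Icc (0 : ℝ) y₀))
    with hK
  have hUo : IsOpen U := by
    have e : U = {p | 1 / 2 < p.1} ∩ ((⋂ i, {p | 1 / 4 < p.2.1 i}) ∩ ({p | -1 < p.2.2.1} ∩
        {p | |p.2.2.2| < 2 * y₀})) := by
      ext p
      simp [hU]
    rw [e]
    refine (isOpen_lt continuous_const continuous_fst).inter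
      ((isOpen_iInter_of_finite fun i => ?_).inter (IsOpen.inter ?_ ?_))
    · exact isOpen_lt continuous_const (by fun_prop)
    · exact isOpen_lt continuous_const (by fun_prop)
    · exact isOpen_lt (by fun_prop) continuous_const
  have hKc : IsCompact K :=
    isCompact_Icc.prod ((isCompact_univ_pi fun _ => isCompact_Icc).prod
      (isCompact_Icc.prod isCompact_Icc))
  have hKU : K ⊆ U := by
    rintro ⟨t, γ, κ, y⟩ ⟨ht, hγ, hκ, hy⟩
    refine ⟨?_, fun i => ?_, ?_, ?_⟩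
    · have : (1 : ℝ) ≤ t := ht.1
      change 1 / 2 < t
      linarith
    · have := (hγ i (mem_univ i)).1
      change 1 / 4 < γ i
      linarith
    · have : (0 : ℝ) ≤ κ := hκ.1
      change -1 < κ
      linarith
    · have h1 : (0 : ℝ) ≤ y := hy.1
      have h2 : y ≤ y₀ := hy.2
      change |y| < 2 * y₀
      rw [abs_of_nonneg h1]
      linarith
  set Θ : (ℝ × (Fin n → ℝ) × ℝ × ℝ) × E n → ℂ := fun q =>
    ((Real.exp (2 * π / q.1.1 * Real.sqrt (Qd q.1.2.1 q.2)) * Qd q.1.2.1 q.2 ^ (-((M : ℝ) / 2)) *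
        (Qd q.1.2.1 q.2 ^ b * (q.1.2.2.1 + 4 * π ^ 2 * ‖q.2‖ ^ 2) ^ a * psi n q.2) : ℝ) : ℂ) /
      (Pb M).eval (q.1.2.2.2 / (2 * π * Complex.I * (Real.sqrt (Qd q.1.2.1 q.2) : ℝ) *
        tau q.1.2.2.2 q.1.1)) with hΘ
  have hne : ∀ t y : ℝ, ∀ γ : Fin n → ℝ, ∀ η : E n, 1 / 2 < t → (∀ i, 1 / 4 < γ i) →
      |y| < 2 * y₀ → 1 / 2 ≤ ‖η‖ →
      (Pb M).eval (y / (2 * π * Complex.I * (Real.sqrt (Qd γ η) : ℝ) * tau y t)) ≠ 0 := by
    intro t y γ η ht hγ hy hη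
    refine hP _ (lt_of_le_of_lt (ag_norm ht (Qd_sqrt_ge hγ hη)) ?_)
    rw [hy₀] at hy
    linarith
  have hsm : ContDiffOn ℝ ∞ Θ (U ×ˢ univ) := by
    rintro ⟨⟨t, γ, κ, y⟩, η⟩ ⟨⟨ht, hγ, hκ, hy⟩, -⟩
    refine ContDiffAt.contDiffWithinAt ?_
    by_cases hη : ‖η‖ < 1 / 2
    · have hc : ContDiffAt ℝ ∞ (fun _ : (ℝ × (Fin n → ℝ) × ℝ × ℝ) × E n => (0 : ℂ))
          ((t, γ, κ, y), η) := contDiffAt_const
      refine hc.congr_of_eventuallyEq ?_
      have ho : IsOpen {q : (ℝ × (Fin n → ℝ) × ℝ × ℝ) × E n | ‖q.2‖ < 1 / 2} :=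
        isOpen_lt (by fun_prop) continuous_const
      filter_upwards [ho.mem_nhds hη] with q hq
      have hq' : ‖q.2‖ < 1 / 2 := hq
      rw [hΘ]
      beta_reduce
      rw [psi_low _ hq', mul_zero, mul_zero, Complex.ofReal_zero, zero_div]
    · have hη' : 1 / 2 ≤ ‖η‖ := not_lt.1 hη
      have hη0 : η ≠ 0 := by
        rintro rfl
        rw [norm_zero] at hη'
        norm_num at hη'
      have ht' : (1 : ℝ) / 2 < t := ht
      have ht0 : t ≠ 0 := by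
        intro h0
        rw [h0] at ht'
        norm_num at ht'
      have hγ' : ∀ i, (1 : ℝ) / 4 < γ i := hγ
      have hQ : 0 < Qd γ η := Qd_pos (fun i => by linarith [hγ' i]) hη0
      have hB : 0 < κ + 4 * π ^ 2 * ‖η‖ ^ 2 := by
        have hκ' : -1 < κ := hκ
        have hπ := Real.pi_gt_three
        have : (1 / 2 : ℝ) ^ 2 ≤ ‖η‖ ^ 2 := by gcongr
        nlinarith [mul_pos Real.pi_pos Real.pi_pos]
      have c1 : ContDiffAt ℝ ∞ (fun q : (ℝ × (Fin n → ℝ) × ℝ × ℝ) × E n => Qd q.1.2.1 q.2)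
          ((t, γ, κ, y), η) := by
        have : ContDiff ℝ ∞ (fun q : (ℝ × (Fin n → ℝ) × ℝ × ℝ) × E n => (q.1.2.1, q.2)) := by
          fun_prop
        exact (contDiff_Qd.comp this).contDiffAt
      have d0 : ContDiff ℝ ∞ (fun q : (ℝ × (Fin n → ℝ) × ℝ × ℝ) × E n => q.1.1) := by fun_prop
      have dy : ContDiff ℝ ∞ (fun q : (ℝ × (Fin n → ℝ) × ℝ × ℝ) × E n => q.1.2.2.2) := by fun_prop
      have c2 : ContDiffAt ℝ ∞ (fun q : (ℝ × (Fin n → ℝ) × ℝ × ℝ) × E n => 2 * π / q.1.1)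
          ((t, γ, κ, y), η) := by
        refine contDiffAt_const.div ?_ ht0
        exact d0.contDiffAt
      have c3 : ContDiffAt ℝ ∞ (fun q : (ℝ × (Fin n → ℝ) × ℝ × ℝ) × E n =>
          q.1.2.2.1 + 4 * π ^ 2 * ‖q.2‖ ^ 2) ((t, γ, κ, y), η) := by
        have d1 : ContDiff ℝ ∞ (fun q : (ℝ × (Fin n → ℝ) × ℝ × ℝ) × E n => q.1.2.2.1) := by
          fun_prop
        have d2 : ContDiff ℝ ∞ (fun q : (ℝ × (Fin n → ℝ) × ℝ × ℝ) × E n => ‖q.2‖ ^ 2) :=
          (contDiff_norm_sq ℝ).comp contDiff_snd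
        exact (d1.add (contDiff_const.mul d2)).contDiffAt
      have c4 : ContDiffAt ℝ ∞ (fun q : (ℝ × (Fin n → ℝ) × ℝ × ℝ) × E n => psi n q.2)
          ((t, γ, κ, y), η) := (psi_smooth.comp contDiff_snd).contDiffAt
      have cs : ContDiffAt ℝ ∞ (fun q : (ℝ × (Fin n → ℝ) × ℝ × ℝ) × E n =>
          Real.sqrt (Qd q.1.2.1 q.2)) ((t, γ, κ, y), η) := c1.sqrt hQ.ne'
      have c5 : ContDiffAt ℝ ∞ (fun q : (ℝ × (Fin n → ℝ) × ℝ × ℝ) × E n =>
          Real.exp (2 * π / q.1.1 * Real.sqrt (Qd q.1.2.1 q.2)) *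
            Qd q.1.2.1 q.2 ^ (-((M : ℝ) / 2)) *
            (Qd q.1.2.1 q.2 ^ b * (q.1.2.2.1 + 4 * π ^ 2 * ‖q.2‖ ^ 2) ^ a * psi n q.2))
          ((t, γ, κ, y), η) := by
        refine ContDiffAt.mul (ContDiffAt.mul ?_ ?_) (ContDiffAt.mul (ContDiffAt.mul ?_ ?_) c4)
        · exact (c2.mul cs).exp
        · exact c1.rpow_const_of_ne hQ.ne'
        · exact c1.rpow_const_of_ne hQ.ne'
        · exact c3.rpow_const_of_ne hB.ne'
      have hre : ∀ {f : (ℝ × (Fin n → ℝ) × ℝ × ℝ) × E n → ℝ},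
          ContDiffAt ℝ ∞ f ((t, γ, κ, y), η) →
          ContDiffAt ℝ ∞ (fun q => (f q : ℂ)) ((t, γ, κ, y), η) := by
        intro f hf
        exact Complex.ofRealCLM.contDiff.contDiffAt.comp _ hf
      have ctau : ContDiffAt ℝ ∞ (fun q : (ℝ × (Fin n → ℝ) × ℝ × ℝ) × E n =>
          tau q.1.2.2.2 q.1.1) ((t, γ, κ, y), η) := by
        unfold tau
        refine (hre d0.contDiffAt).add ((hre ?_).mul contDiffAt_const)
        exact dy.contDiffAt.div d0.contDiffAt ht0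
      have htau : tau y t ≠ 0 := by
        intro h0
        have h1 := congrArg Complex.re h0
        unfold tau at h1
        simp only [Complex.add_re, Complex.ofReal_re, Complex.re_ofReal_mul, Complex.I_re,
          mul_zero, add_zero, Complex.zero_re] at h1
        exact ht0 h1
      have hden : 2 * (π : ℂ) * Complex.I * (Real.sqrt (Qd γ η) : ℝ) * tau y t ≠ 0 := by
        refine mul_ne_zero (mul_ne_zero (mul_ne_zero (mul_ne_zero two_ne_zero ?_)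
          Complex.I_ne_zero) ?_) htau
        · exact_mod_cast Real.pi_ne_zero
        · exact_mod_cast (Real.sqrt_pos.2 hQ).ne'
      have cag : ContDiffAt ℝ ∞ (fun q : (ℝ × (Fin n → ℝ) × ℝ × ℝ) × E n =>
          (q.1.2.2.2 : ℂ) / (2 * π * Complex.I * (Real.sqrt (Qd q.1.2.1 q.2) : ℝ) *
            tau q.1.2.2.2 q.1.1)) ((t, γ, κ, y), η) := by
        simp only [div_eq_mul_inv]
        refine (hre dy.contDiffAt).mul (ContDiffAt.inv ?_ hden)
        exact (contDiffAt_const.mul (hre cs)).mul ctau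
      have cP : ContDiffAt ℝ ∞ (fun q : (ℝ × (Fin n → ℝ) × ℝ × ℝ) × E n =>
          (Pb M).eval ((q.1.2.2.2 : ℂ) / (2 * π * Complex.I * (Real.sqrt (Qd q.1.2.1 q.2) : ℝ) *
            tau q.1.2.2.2 q.1.1))) ((t, γ, κ, y), η) := by
        have h1 : ContDiff ℝ ∞ (fun z : ℂ => (Pb M).eval z) := by
          have h2 : ContDiff ℂ ∞ (fun z : ℂ => (Pb M).eval z) :=
            (Pb M).differentiable.contDiff
          exact h2.restrict_scalars ℝ
        exact h1.contDiffAt.comp _ cag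
      have cc := (hre c5).mul (ContDiffAt.inv cP (hne t y γ η ht' hγ' hy hη'))
      refine cc.congr_of_eventuallyEq (Eventually.of_forall fun q => ?_)
      exact div_eq_mul_inv _ _
  have hz : ∀ p ∈ U, ∀ ξ ∉ Metric.closedBall (0 : E n) 2, Θ (p, ξ) = 0 := by
    intro p _ ξ hξ
    have hξ' : 2 < ‖ξ‖ := by
      by_contra hcon
      exact hξ (by simpa using not_lt.1 hcon)
    rw [hΘ]
    beta_reduce
    rw [psi_high _ hξ', mul_zero, mul_zero, Complex.ofReal_zero, zero_div]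
  obtain ⟨C, hC0, hC⟩ := h _ U K hUo hKc hKU Θ hsm _ (isCompact_closedBall 0 2) hz
  refine ⟨y₀, C, hy0, hC0, fun p hp t ht g hg κ hκ y hy hyy R hR => ⟨?_, ?_⟩⟩
  · intro η hη
    have hγ : ∀ i, (1 : ℝ) / 4 < (g i)⁻¹ := by
      intro i
      have h1 := (hg i).1
      have h2 := (hg i).2
      have h3 : (2 : ℝ)⁻¹ ≤ (g i)⁻¹ := inv_anti₀ (by linarith) h2
      linarith
    refine hne t y (fun i => (g i)⁻¹) η (by linarith [ht.1]) hγ ?_ ?_
    · rw [abs_of_pos hy]; linarith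
    · by_contra hcon
      refine hη ?_
      unfold mm
      rw [psi_low _ (not_le.1 hcon), mul_zero]
  · have h1 := hC (t, (fun i => (g i)⁻¹), κ, y) ⟨ht, fun i _ => ?_, hκ, hy.le, hyy⟩ R hR p hp
    · exact h1
    · have h1 := (hg i).1
      have h2 := (hg i).2
      constructor
      · have h3 : (2 : ℝ)⁻¹ ≤ (g i)⁻¹ := inv_anti₀ (by linarith) h2
        simpa using h3
      · exact inv_le_one_of_one_le₀ h1

end Pool.Agent.T9h73.LG
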